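import Pool.Agent.H407R3.Ortho.Holes
import Pool.Agent.H407R3.Ortho.Ball

set_option autoImplicit false

/-! An orthostack, all of whose faces are polygons without holes, that has no edge unfolding. The solid is the
union of the four boxes [-3,0]x[-3,0]x[-3,4], [-3,2]x[-2,-1]x[-2,3], [-2,-1]x[-3,2]x[-2,3] and
[-2,1]x[-2,1]x[0,1]. -/

namespace Pool.Agent.Results.MP_306cd6_co.NoEdgeUnfolding

open H407R3.Ortho Set

/-- lower corners of the four boxes -/
noncomputable def lo : Fin 4 → E3 := ![!₂[-3, -3, -3], !₂[-3, -2, -2], !₂[-2, -3, -2], !₂[-2, -2, 0]]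

/-- upper corners of the four boxes -/
noncomputable def hi : Fin 4 → E3 := ![!₂[0, 0, 4], !₂[2, -1, 3], !₂[-1, 2, 3], !₂[1, 1, 1]]

theorem le_iff {l : ℕ} (h1 : 1 ≤ l) (h2 : l % 2 = 1) (x : ℝ) : l ≤ ty x ↔ ((l : ℝ) - 7) / 2 ≤ x := by
  constructor
  · intro h
    by_contra hc
    push Not at hc
    have := ty_lt_odd h1 h2 hc
    omega
  · intro h
    rcases eq_or_lt_of_le h with h | h
    · exact ((ty_eq_odd h1 h2).2 h.symm).ge
    · have := odd_lt_ty h1 h2 h
      omega

theorem ge_iff {l : ℕ} (h1 : 1 ≤ l) (h2 : l % 2 = 1) (x : ℝ) : ty x ≤ l ↔ x ≤ ((l : ℝ) - 7) / 2 := by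
  constructor
  · intro h
    by_contra hc
    push Not at hc
    have := odd_lt_ty h1 h2 hc
    omega
  · intro h
    rcases eq_or_lt_of_le h with h | h
    · exact ((ty_eq_odd h1 h2).2 h).le
    · have := ty_lt_odd h1 h2 h
      omega

theorem Sol_eq : Sol = ⋃ k, Box (lo k) (hi k) := by
  ext p
  have e1 := le_iff (l := 1) (by norm_num) (by norm_num)
  have e3 := le_iff (l := 3) (by norm_num) (by norm_num)
  have e7 := le_iff (l := 7) (by norm_num) (by norm_num)
  have g5 := ge_iff (l := 5) (by norm_num) (by norm_num)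
  have g7 := ge_iff (l := 7) (by norm_num) (by norm_num)
  have g9 := ge_iff (l := 9) (by norm_num) (by norm_num)
  have g11 := ge_iff (l := 11) (by norm_num) (by norm_num)
  have g13 := ge_iff (l := 13) (by norm_num) (by norm_num)
  have g15 := ge_iff (l := 15) (by norm_num) (by norm_num)
  simp only [Sol, mem_ofPred_eq, SM, Bool.or_eq_true, Bool.and_eq_true, inb_iff, tv, e1, e3, e7, g5, g7, g9,
    g11, g13, g15, mem_iUnion, Fin.exists_fin_succ, Box, Fin.forall_fin_succ, lo, hi]
  norm_num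
  tauto

/-- There is an orthostack, all of whose faces are polygons without holes, that has no edge unfolding. -/
theorem result : ∃ S : Set E3, IsOrthostack S ∧ (∀ F, IsFace S F → HoleFree F) ∧
    ¬ ∃ φ : Set E3 → E3 → E2, IsEdgeUnfolding S φ := by
  refine ⟨Sol, ?_, fun F hF => holeFree hF, no_unfolding⟩
  refine orthostack_of_boxes (by norm_num) lo hi (!₂[-(3 / 2), -(3 / 2), 1 / 2] : E3) ?_ Sol_eq
  intro k i
  fin_cases k <;> fin_cases i <;> simp [lo, hi] <;> norm_num

end Pool.Agent.Results.MP_306cd6_co.NoEdgeUnfolding
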